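import Pool.Agent.Helper25_CN3.Stmts

/-!
Squad CN3 (MP_6d18f4_al, Q2), modules V_IP and V_MEM: coordinates.
-/

noncomputable section

namespace Pool.Agent.H26CN3

open Pool.Agent.H25Cong Pool.Agent.CON Pool.Agent.CN2 Pool.Agent.CN3

/-- the scalar product of two lists as a sum -/
theorem dot_eq : ∀ (u v : List ℤ) (m : ℕ), u.length ≤ m ∨ v.length ≤ m →
    dot u v = ∑ i ∈ Finset.range m, u.getD i 0 * v.getD i 0
  | [], v, m, _ => by simp [dot]
  | a :: u, [], m, _ => by simp [dot]
  | a :: u, b :: v, 0, h => by simp at h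
  | a :: u, b :: v, m + 1, h => by
    rw [Finset.sum_range_succ']
    have ih := dot_eq u v m (by
      rcases h with h | h
      · left; simpa using h
      · right; simpa using h)
    have e : dot (a :: u) (b :: v) = a * b + dot u v := by simp [dot]
    rw [e, ih]
    simp only [List.getD_cons_succ, List.getD_cons_zero]
    ring

theorem dot_nil (y : List ℤ) : dot [] y = 0 := by simp [dot]

/-- entries of a mapped list -/
theorem getD_map_dot (G : List (List ℤ)) (y : List ℤ) (i : ℕ) :
    (G.map fun r => dot r y).getD i 0 = dot (G.getD i []) y := by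
  rw [List.getD_eq_getElem?_getD, List.getD_eq_getElem?_getD, List.getElem?_map]
  cases h : G[i]? with
  | none => simp [dot_nil]
  | some r => simp

/-- what the check of the Gram matrix says -/
theorem sym_iff (m : ℕ) (G : List (List ℤ)) (h : symB m G = true) :
    G.length = m ∧ (∀ i < m, (G.getD i []).length = m) := by
  unfold symB at h
  simp only [Bool.and_eq_true, decide_eq_true_eq, List.all_eq_true] at h
  obtain ⟨⟨⟨h1, h2⟩, _⟩, _⟩ := h
  refine ⟨h1, fun i hi => h2 _ ?_⟩
  rw [List.getD_eq_getElem _ _ (by omega)]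
  exact List.getElem_mem _

/-- V1: the form in coordinates -/
theorem v_ip : V_IP := by
  intro n a G hG x y
  obtain ⟨h1, h2⟩ := sym_iff _ _ hG.sym
  have e : gip G x y = ∑ i : Fin (n + 1), ∑ j : Fin (n + 1),
      x.getD i 0 * (ent G i j * y.getD j 0) := by
    unfold gip
    rw [dot_eq x _ (n + 1) (Or.inr (by rw [List.length_map, h1]))]
    rw [Finset.sum_range]
    refine Finset.sum_congr rfl fun i _ => ?_
    rw [getD_map_dot, dot_eq (G.getD i []) y (n + 1) (Or.inl (by rw [h2 i i.2])),
      Finset.sum_range, Finset.mul_sum]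
    rfl
  rw [e]
  unfold lv
  rw [B_sum_left]
  push_cast
  refine Finset.sum_congr rfl fun i _ => ?_
  rw [B_sum_right]
  refine Finset.sum_congr rfl fun j _ => ?_
  rw [B_smul_left, B_smul_right, hG.gram]
  ring

theorem lv_repr {n : ℕ} (a : Module.Basis (Fin (n + 1)) ℝ (V n)) (x : List ℤ)
    (i : Fin (n + 1)) : a.repr (lv a x) i = ((x.getD i 0 : ℤ) : ℝ) := by
  unfold lv
  rw [map_sum]
  simp only [map_smul, Module.Basis.repr_self, Finsupp.coe_finsetSum, Finset.sum_apply,
    Finsupp.smul_apply, smul_eq_mul, Finsupp.single_apply]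
  simp

/-- V2: vectors of the lattice -/
theorem v_mem : V_MEM := by
  intro n a
  have h1 : ∀ x : List ℤ, lv a x ∈ LL a := by
    intro x
    unfold lv
    refine Submodule.sum_mem _ fun i _ => ?_
    have e : ((x.getD i 0 : ℤ) : ℝ) • a i = (x.getD i 0 : ℤ) • a i := by
      rw [Int.cast_smul_eq_zsmul]
    rw [e]
    exact Submodule.smul_mem _ _ (Submodule.subset_span ⟨i, rfl⟩)
  have h2 : ∀ v ∈ LL a, ∃ x : List ℤ, x.length = n + 1 ∧ v = lv a x := by
    intro v hv
    rw [LL, Submodule.mem_span_range_iff_exists_fun] at hv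
    obtain ⟨c, hc⟩ := hv
    refine ⟨List.ofFn c, by simp, ?_⟩
    rw [← hc]
    unfold lv
    refine Finset.sum_congr rfl fun i _ => ?_
    have e : (List.ofFn c).getD i 0 = c i := by
      rw [List.getD_eq_getElem _ _ (by simp only [List.length_ofFn]; exact i.2),
        List.getElem_ofFn]
    rw [e, Int.cast_smul_eq_zsmul]
  refine ⟨h1, h2, ?_, ?_⟩
  · intro k
    unfold lv av
    have e : ∀ i : Fin (n + 1), (uv (n + 1) k).getD i 0 = if k = (i : ℕ) then 1 else 0 := by
      intro i
      unfold uv
      rw [List.getD_eq_getElem _ _ (by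
        simp only [List.length_map, List.length_range]; exact i.2), List.getElem_map,
        List.getElem_range]
    simp only [e]
    by_cases hk : k < n + 1
    · rw [dif_pos hk, Finset.sum_eq_single (⟨k, hk⟩ : Fin (n + 1))]
      · simp
      · intro j _ hj
        have : ¬ k = (j : ℕ) := by
          intro h
          apply hj
          exact Fin.ext h.symm
        simp [this]
      · intro h
        exact absurd (Finset.mem_univ _) h
    · rw [dif_neg hk]
      refine Finset.sum_eq_zero fun j _ => ?_
      have : ¬ k = (j : ℕ) := by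
        intro h
        have := j.2
        omega
      simp [this]
  · intro v hv i
    obtain ⟨x, -, rfl⟩ := h2 v hv
    exact ⟨_, lv_repr a x i⟩

end Pool.Agent.H26CN3

end
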