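import Pool.Agent.Helper25_CN3.Stmts

/-!
Squad CN3 (MP_6d18f4_al, Q2), module C_DSC: descent to the fundamental chamber.
-/

noncomputable section

namespace Pool.Agent.H26CN3

open Pool.Agent.H25Cong Pool.Agent.CON Pool.Agent.CN2 Pool.Agent.CN3

/-- C1: descent -/
theorem c_dsc (hip : V_IP) (hmem : V_MEM) (hrot : V_ROT) (href : T_REF) : C_DSC := by
  intro n a G A p hG hA hAp hpp
  obtain ⟨hm1, hm2, -, -⟩ := hmem n a
  have hpp' : B (lv a p) (lv a p) < 0 := by
    rw [hip n a G hG]
    exact_mod_cast hpp
  have hint : ∀ v ∈ LL a, ∃ k : ℤ, B v (lv a p) = k := by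
    intro v hv
    obtain ⟨x, -, rfl⟩ := hm2 v hv
    exact ⟨_, hip n a G hG x p⟩
  have main : ∀ (m : ℕ) (v : V n), v ∈ LL a → B v v ≤ 0 → B v (lv a p) < 0 →
      -B v (lv a p) ≤ m → ∃ w ∈ RefL (LL a), ∀ r ∈ A, 0 ≤ B (w v) (lv a r) := by
    intro m
    induction m with
    | zero =>
      intro v _ _ h1 h2
      exfalso
      simp only [Nat.cast_zero] at h2
      linarith
    | succ m ih =>
      intro v hv hvv hvp hm
      by_cases hex : ∃ r ∈ A, B v (lv a r) < 0
      · obtain ⟨r, hr, hneg⟩ := hex
        obtain ⟨hrr, hS, hSL, -⟩ := hrot n a G r hG (hA r hr)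
        have hrp : 0 < B (lv a r) (lv a p) := by
          rw [B_comm, hip n a G hG]
          exact_mod_cast hAp r hr
        have hv' : S (lv a r) v ∈ LL a := hSL v hv
        have hlt : B v (lv a p) < B (S (lv a r) v) (lv a p) := by
          rw [S_apply, B_sub_left, B_smul_left]
          have h1 : 2 * B v (lv a r) / B (lv a r) (lv a r) < 0 :=
            div_neg_of_neg_of_pos (by linarith) hrr
          have h2 := mul_neg_of_neg_of_pos h1 hrp
          linarith
        have hneg' : B (S (lv a r) v) (lv a p) < 0 :=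
          href n (LL a) (S (lv a r)) (lv a p) v hS hpp' hvv hvp
        obtain ⟨k, hk⟩ := hint v hv
        obtain ⟨k', hk'⟩ := hint _ hv'
        have hkk : k + 1 ≤ k' := by
          rw [hk, hk'] at hlt
          have : k < k' := by exact_mod_cast hlt
          omega
        have hkk' : (k : ℝ) + 1 ≤ k' := by exact_mod_cast hkk
        obtain ⟨w, hw, hw'⟩ := ih (S (lv a r) v) hv' (by rw [S_isom]; exact hvv) hneg' (by
          rw [hk']
          rw [hk] at hm
          push_cast at hm
          linarith)
        exact ⟨w * S (lv a r), (RefL (LL a)).mul_mem hw hS, fun r' hr' => by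
          rw [mul_ap]
          exact hw' r' hr'⟩
      · push Not at hex
        exact ⟨1, (RefL (LL a)).one_mem, fun r hr => by
          rw [one_ap]
          exact hex r hr⟩
  intro v hv hvv hvp
  obtain ⟨m, hm⟩ := exists_nat_ge (-B v (lv a p))
  exact main m v hv hvv hvp hm

end Pool.Agent.H26CN3

end
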