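import Pool.Agent.Helper26_CN3.V

/-!
Squad CN3 (MP_6d18f4_al, Q2), module W_PRM: permutation of the simple roots.
-/

noncomputable section

namespace Pool.Agent.H26CN3

open Pool.Agent.H25Cong Pool.Agent.CON Pool.Agent.CN2 Pool.Agent.CN3

variable {n : ℕ}

theorem refl_mem {L : Submodule ℤ (V n)} (hL : EvenLat L) {r : V n} (hr : r ∈ L)
    (h2 : B r r = 2) : S r ∈ RefL L ∧ S r ∈ OLat L := by
  have h1 : ∀ x ∈ L, S r x ∈ L := by
    intro x hx
    obtain ⟨k, hk⟩ := hL.int x hx r hr
    rw [S_apply, h2, hk]
    have e : (2 * (k : ℝ) / 2) • r = k • r := by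
      rw [← Int.cast_smul_eq_zsmul ℝ k r]
      congr 1
      ring
    rw [e]
    exact L.sub_mem hx (L.smul_mem k hr)
  refine ⟨Subgroup.subset_closure ⟨⟨r, by rw [h2]; norm_num, fun x => S_apply r x⟩, h1⟩, ?_⟩
  refine ⟨S_isom r, fun x => ⟨fun hx => ?_, h1 x⟩⟩
  have := h1 _ hx
  rwa [S_S] at this

/-- W2: permutation of the simple roots -/
theorem w_prm (hip : V_IP) (hmem : V_MEM) (hhyp : V_HYP) (hevn : V_EVN) (hsgn : W_SGN) :
    W_PRM := by
  intro n a G q R hG hh hsim hwey
  obtain ⟨hn1, hee, hff, hef, hperp, -⟩ := hhyp n a G hG hh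
  obtain ⟨hm1, hm2, hm3, hm4⟩ := hmem n a
  have hev := hevn n a G hG
  obtain ⟨hlen, -⟩ := sym_iff _ _ hG.sym
  -- the checks
  have hq : q + 2 ≤ n + 1 := by
    unfold simB at hsim
    simp only [Bool.and_eq_true, Bool.or_eq_true, decide_eq_true_eq] at hsim
    rcases hsim.2 with h | ⟨⟨h, -⟩, -⟩ <;> omega
  have hdiag : ∀ i < q, ent G (2 + i) (2 + i) = 2 := by
    intro i hi
    unfold simB at hsim
    simp only [Bool.and_eq_true, List.all_eq_true, List.mem_range] at hsim
    have h1 := hsim.1 (2 + i) (by omega) (2 + i) (by omega)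
    simp only [if_true, Bool.or_eq_true, decide_eq_true_eq] at h1
    omega
  have hw1 : ∀ k < n + 1, (2 ≤ k ∧ k < q + 2 → 0 < R.getD k 0 ∧ gip G R (uv (n + 1) k) = 2) ∧
      (¬ (2 ≤ k ∧ k < q + 2) → R.getD k 0 = 0) := by
    intro k hk
    unfold weyB at hwey
    simp only [Bool.and_eq_true, List.all_eq_true, List.mem_range, decide_eq_true_eq] at hwey
    have h1 := hwey.2 k (by omega)
    rw [hlen] at h1
    refine ⟨fun h => ?_, fun h => ?_⟩
    · rw [if_pos h] at h1
      simpa using h1
    · rw [if_neg h] at h1
      simpa using h1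
  have hav : ∀ i < q, B (av a (2 + i)) (av a (2 + i)) = 2 := by
    intro i hi
    have h1 : av a (2 + i) = a ⟨2 + i, by omega⟩ := by
      unfold av
      rw [dif_pos (by omega)]
    rw [h1, hG.gram]
    change ((ent G (2 + i) (2 + i) : ℤ) : ℝ) = 2
    rw [hdiag i hi]
    norm_num
  have havL : ∀ k, av a k ∈ LL a := by
    intro k
    rw [← hm3]
    exact hm1 _
  set e := av a 0 with he
  set f := av a 1 with hf
  set ρ := lv a R with hρ
  have hρk : ∀ i < q, B ρ (av a (2 + i)) = 2 := by
    intro i hi
    rw [← hm3, hρ, hip n a G hG]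
    rw [((hw1 (2 + i) (by omega)).1 (by omega)).2]
    norm_num
  have hρs : ρ = ∑ i ∈ Finset.range q, ((R.getD (2 + i) 0 : ℤ) : ℝ) • av a (2 + i) := by
    have h1 : ρ = ∑ k ∈ Finset.range (n + 1), ((R.getD k 0 : ℤ) : ℝ) • av a k := by
      rw [hρ, lv, Finset.sum_range]
      refine Finset.sum_congr rfl fun i _ => ?_
      rw [av, dif_pos i.2]
    rw [h1]
    have h2 : ∑ k ∈ Finset.Ico 2 (2 + q), ((R.getD k 0 : ℤ) : ℝ) • av a k =
        ∑ i ∈ Finset.range q, ((R.getD (2 + i) 0 : ℤ) : ℝ) • av a (2 + i) := by
      rw [Finset.sum_Ico_eq_sum_range]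
      congr 2
      omega
    rw [← h2]
    refine (Finset.sum_subset (fun k hk => ?_) fun k hk hk' => ?_).symm
    · rw [Finset.mem_Ico] at hk
      rw [Finset.mem_range]
      omega
    · rw [Finset.mem_range] at hk
      rw [Finset.mem_Ico] at hk'
      rw [(hw1 k hk).2 (by omega)]
      simp
  have hfact : ∀ v : V n, B v e = 0 → B v f = 0 → 0 ≤ B v v ∧ (B v v = 0 → v = 0) := by
    intro v h1 h2
    have hp : B (e + f) (e + f) < 0 := by
      rw [B_add_left, B_add_right, B_add_right, hee, hff, B_comm f e, hef]
      norm_num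
    have hv : B v (e + f) = 0 := by rw [B_add_right, h1, h2, add_zero]
    exact ⟨perp_nonneg hp hv, fun h => perp_eq_zero hp hv h⟩
  have hρe : B ρ e = 0 := by
    rw [hρs, B_sum_left]
    refine Finset.sum_eq_zero fun i _ => ?_
    rw [B_smul_left, (hperp (2 + i) (by omega)).1, mul_zero]
  have hρf : B ρ f = 0 := by
    rw [hρs, B_sum_left]
    refine Finset.sum_eq_zero fun i _ => ?_
    rw [B_smul_left, (hperp (2 + i) (by omega)).2, mul_zero]
  have hρL : ρ ∈ LL a := hm1 R
  -- the induction
  have main : ∀ (m : ℕ) (g : V n ≃ₗ[ℝ] V n), g ∈ OLat (LL a) → g e = e → g f = f →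
      B ρ ρ - B (g ρ) ρ ≤ m →
      ∃ w ∈ RefL (LL a), w (g e) = e ∧ w (g f) = f ∧
        ∃ π : ℕ → ℕ, (∀ i < q, π i < q) ∧ ∀ i < q, w (g (av a (2 + i))) = av a (2 + π i) := by
    intro m
    induction m using Nat.strong_induction_on with
    | _ m ih =>
      intro g hg hge hgf hm
      have hgi : ∀ x y, B (g x) (g y) = B x y := hg.1
      have hgL : ∀ x ∈ LL a, g x ∈ LL a := fun x hx => (hg.2 x).2 hx
      have hge' : ∀ x, B (g x) e = B x e := by
        intro x
        conv_lhs => rw [← hge]
        exact hgi x e
      have hgf' : ∀ x, B (g x) f = B x f := by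
        intro x
        conv_lhs => rw [← hgf]
        exact hgi x f
      have hnn : 0 ≤ B ρ ρ - B (g ρ) ρ := by
        have h1 := (hfact (ρ - g ρ) (by rw [B_sub_left, hge', sub_self])
          (by rw [B_sub_left, hgf', sub_self])).1
        rw [B_sub_left, B_sub_right, B_sub_right, hgi, B_comm ρ (g ρ)] at h1
        linarith
      by_cases hex : ∃ i < q, B (g (av a (2 + i))) ρ < 0
      · obtain ⟨i, hi, hneg⟩ := hex
        set r := g (av a (2 + i)) with hr
        have hrL : r ∈ LL a := hgL _ (havL _)
        have hrr : B r r = 2 := by rw [hr, hgi, hav i hi]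
        have hre : B r e = 0 := by rw [hr, hge', (hperp (2 + i) (by omega)).1]
        have hrf : B r f = 0 := by rw [hr, hgf', (hperp (2 + i) (by omega)).2]
        obtain ⟨hS1, hS2⟩ := refl_mem hev hrL hrr
        have hSe : S r e = e := by
          rw [S_apply, B_comm, hre]
          simp
        have hSf : S r f = f := by
          rw [S_apply, B_comm, hrf]
          simp
        obtain ⟨k, hk⟩ := hev.int r hrL ρ hρL
        have hk1 : k ≤ -1 := by
          rw [hk] at hneg
          have : k < 0 := by exact_mod_cast hneg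
          omega
        have hk2 : (k : ℝ) ≤ -1 := by exact_mod_cast hk1
        have hval : B ((S r * g) ρ) ρ = B (g ρ) ρ - 2 * k := by
          rw [mul_ap, S_apply, hrr]
          have h1 : B (g ρ) r = 2 := by
            rw [hr, hgi, hρk i hi]
          rw [h1, B_sub_left, B_smul_left, hk]
          ring
        have hm2' : 2 ≤ m := by
          have h2 : 0 ≤ B ρ ρ - B ((S r * g) ρ) ρ := by
            have h3 : ∀ x y, B ((S r * g) x) ((S r * g) y) = B x y := by
              intro x y
              rw [mul_ap, mul_ap, S_isom, hgi]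
            have h4 : ∀ x, B ((S r * g) x) e = B x e := by
              intro x
              have h5 : (S r * g) e = e := by rw [mul_ap, hge, hSe]
              conv_lhs => rw [← h5]
              exact h3 x e
            have h4' : ∀ x, B ((S r * g) x) f = B x f := by
              intro x
              have h5 : (S r * g) f = f := by rw [mul_ap, hgf, hSf]
              conv_lhs => rw [← h5]
              exact h3 x f
            have h1 := (hfact (ρ - (S r * g) ρ) (by rw [B_sub_left, h4, sub_self])
              (by rw [B_sub_left, h4', sub_self])).1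
            rw [B_sub_left, B_sub_right, B_sub_right, h3, B_comm ρ ((S r * g) ρ)] at h1
            linarith
          rw [hval] at h2
          have h3 : (2 : ℝ) ≤ m := by linarith
          exact_mod_cast h3
        obtain ⟨w, hw, hwe, hwf, π, hπ, hπ'⟩ := ih (m - 2) (by omega) (S r * g)
          ((OLat (LL a)).mul_mem hS2 hg) (by rw [mul_ap, hge, hSe]) (by rw [mul_ap, hgf, hSf])
          (by
            rw [hval]
            have : ((m - 2 : ℕ) : ℝ) = (m : ℝ) - 2 := by
              rw [Nat.cast_sub hm2']
              norm_num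
            rw [this]
            linarith)
        exact ⟨w * S r, (RefL (LL a)).mul_mem hw hS1, hwe, hwf, π, hπ, hπ'⟩
      · push Not at hex
        have hpos : ∀ i < q, ∃ c : ℕ → ℕ, g (av a (2 + i)) =
            ∑ j ∈ Finset.range q, ((c j : ℕ) : ℝ) • av a (2 + j) ∧
            B (g (av a (2 + i))) ρ = 2 * ((∑ j ∈ Finset.range q, c j : ℕ) : ℝ) ∧
            1 ≤ ∑ j ∈ Finset.range q, c j := by
          intro i hi
          obtain ⟨c, hc⟩ := hsgn n a G q hG hh hsim (g (av a (2 + i))) (hgL _ (havL _))
            (by rw [← he, hge', (hperp (2 + i) (by omega)).1])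
            (by rw [← hf, hgf', (hperp (2 + i) (by omega)).2])
            (by rw [hgi, hav i hi])
          have h1 : B (∑ j ∈ Finset.range q, ((c j : ℕ) : ℝ) • av a (2 + j)) ρ =
              2 * ((∑ j ∈ Finset.range q, c j : ℕ) : ℝ) := by
            rw [B_sum_left]
            push_cast
            rw [Finset.mul_sum]
            refine Finset.sum_congr rfl fun j hj => ?_
            rw [B_smul_left, B_comm, hρk j (Finset.mem_range.1 hj)]
            ring
          have h2 : 1 ≤ ∑ j ∈ Finset.range q, c j := by
            by_contra hcon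
            have h3 : ∑ j ∈ Finset.range q, c j = 0 := by omega
            have h4 : ∀ j ∈ Finset.range q, c j = 0 := by
              intro j hj
              exact (Finset.sum_eq_zero_iff.1 h3) j hj
            have h5 : ∑ j ∈ Finset.range q, ((c j : ℕ) : ℝ) • av a (2 + j) = 0 := by
              refine Finset.sum_eq_zero fun j hj => ?_
              rw [h4 j hj]
              simp
            rw [h5, neg_zero, or_self] at hc
            have h6 := hav i hi
            rw [← hgi, hc, B_zero_left] at h6
            norm_num at h6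
          rcases hc with hc | hc
          · exact ⟨c, hc, by rw [hc, h1], h2⟩
          · exfalso
            have h3 := hex i hi
            rw [hc, B_neg_left, h1] at h3
            have h4 : (1 : ℝ) ≤ ((∑ j ∈ Finset.range q, c j : ℕ) : ℝ) := by exact_mod_cast h2
            linarith
        -- equality
        have hsum1 : B (g ρ) ρ = ∑ i ∈ Finset.range q,
            ((R.getD (2 + i) 0 : ℤ) : ℝ) * B (g (av a (2 + i))) ρ := by
          conv_lhs => rw [hρs]
          rw [map_sum, B_sum_left]
          refine Finset.sum_congr rfl fun i _ => ?_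
          rw [map_smul, B_smul_left, ← hρs]
        have hsum2 : B ρ ρ = ∑ i ∈ Finset.range q, ((R.getD (2 + i) 0 : ℤ) : ℝ) * 2 := by
          have h1 : B ρ ρ = B (∑ i ∈ Finset.range q,
              ((R.getD (2 + i) 0 : ℤ) : ℝ) • av a (2 + i)) ρ := congrArg (fun z => B z ρ) hρs
          rw [h1, B_sum_left]
          refine Finset.sum_congr rfl fun i hi => ?_
          rw [B_smul_left, B_comm, hρk i (Finset.mem_range.1 hi)]
        have hRpos : ∀ i < q, (0 : ℝ) < ((R.getD (2 + i) 0 : ℤ) : ℝ) := by
          intro i hi
          have := ((hw1 (2 + i) (by omega)).1 (by omega)).1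
          exact_mod_cast this
        have hge2 : ∀ i < q, 2 ≤ B (g (av a (2 + i))) ρ := by
          intro i hi
          obtain ⟨c, -, h1, h2⟩ := hpos i hi
          rw [h1]
          have h4 : (1 : ℝ) ≤ ((∑ j ∈ Finset.range q, c j : ℕ) : ℝ) := by exact_mod_cast h2
          linarith
        have hzero : ∑ i ∈ Finset.range q, ((R.getD (2 + i) 0 : ℤ) : ℝ) *
            (B (g (av a (2 + i))) ρ - 2) = 0 := by
          have h1 : ∑ i ∈ Finset.range q, ((R.getD (2 + i) 0 : ℤ) : ℝ) *
              (B (g (av a (2 + i))) ρ - 2) = B (g ρ) ρ - B ρ ρ := by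
            rw [hsum1, hsum2, ← Finset.sum_sub_distrib]
            exact Finset.sum_congr rfl fun i _ => by ring
          have h2 : 0 ≤ ∑ i ∈ Finset.range q, ((R.getD (2 + i) 0 : ℤ) : ℝ) *
              (B (g (av a (2 + i))) ρ - 2) := by
            refine Finset.sum_nonneg fun i hi => ?_
            have h3 := hge2 i (Finset.mem_range.1 hi)
            have h4 := hRpos i (Finset.mem_range.1 hi)
            exact mul_nonneg h4.le (by linarith)
          linarith
        have hone : ∀ i < q, ∃ j < q, g (av a (2 + i)) = av a (2 + j) := by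
          intro i hi
          have h1 := (Finset.sum_eq_zero_iff_of_nonneg (fun i hi => by
            have h3 := hge2 i (Finset.mem_range.1 hi)
            have h4 := hRpos i (Finset.mem_range.1 hi)
            exact mul_nonneg h4.le (by linarith))).1 hzero i (Finset.mem_range.2 hi)
          have h2 : B (g (av a (2 + i))) ρ = 2 := by
            rcases mul_eq_zero.1 h1 with h3 | h3
            · have := hRpos i hi
              rw [h3] at this
              exact absurd this (lt_irrefl _)
            · linarith
          obtain ⟨c, hc, h3, h4⟩ := hpos i hi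
          rw [h2] at h3
          have h5 : ∑ j ∈ Finset.range q, c j = 1 := by
            have : ((∑ j ∈ Finset.range q, c j : ℕ) : ℝ) = 1 := by linarith
            exact_mod_cast this
          obtain ⟨j, hj, hj'⟩ : ∃ j ∈ Finset.range q, c j ≠ 0 := by
            by_contra hcon
            push Not at hcon
            rw [Finset.sum_eq_zero hcon] at h5
            omega
          have h6 : ∀ l ∈ Finset.range q, l ≠ j → c l = 0 := by
            intro l hl hlj
            have h7 : c j + c l ≤ ∑ j ∈ Finset.range q, c j := by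
              have h8 : ∑ x ∈ ({j, l} : Finset ℕ), c x ≤ ∑ j ∈ Finset.range q, c j := by
                refine Finset.sum_le_sum_of_subset fun x hx => ?_
                rw [Finset.mem_insert, Finset.mem_singleton] at hx
                rcases hx with rfl | rfl
                · exact hj
                · exact hl
              rwa [Finset.sum_pair hlj.symm] at h8
            omega
          have h7 : c j = 1 := by
            have h8 : ∑ x ∈ Finset.range q, c x = c j :=
              Finset.sum_eq_single_of_mem j hj h6
            omega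
          refine ⟨j, Finset.mem_range.1 hj, ?_⟩
          rw [hc, Finset.sum_eq_single_of_mem j hj, h7]
          · simp
          · intro l hl hlj
            rw [h6 l hl hlj]
            simp
        choose! π hπ hπ' using hone
        exact ⟨1, (RefL (LL a)).one_mem, by rw [one_ap, hge], by rw [one_ap, hgf], π, hπ,
          fun i hi => by rw [one_ap, hπ' i hi]⟩
  intro g hg hge hgf
  obtain ⟨m, hm⟩ := exists_nat_ge (B ρ ρ - B (g ρ) ρ)
  obtain ⟨w, hw, h1, h2, h3⟩ := main m g hg hge hgf hm
  exact ⟨w, hw, h1, h2, h3⟩

end Pool.Agent.H26CN3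

end
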